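import Pool.Agent.helper30.QP.SpecK

set_option autoImplicit false

open Polynomial Pool.Agent.helper7.IG

noncomputable section

namespace Pool.Agent.QP

theorem HTB_ic {F E : Type} [Field F] [Field E] [Algebra F E] (u : E) (hu : Transcendental F u) :
    IsIntegrallyClosed (Algebra.adjoin F {u}) := by
  have hinj : Function.Injective (aeval u : F[X] →ₐ[F] E) := transcendental_iff_injective.1 hu
  have e : F[X] ≃ₐ[F] Algebra.adjoin F {u} :=
    (AlgEquiv.ofInjective _ hinj).trans
      (Subalgebra.equivOfEq _ _ (Algebra.adjoin_singleton_eq_range_aeval F u).symm)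
  exact IsIntegrallyClosed.of_equiv e.toRingEquiv

open scoped IntermediateField.algebraAdjoinAdjoin in
theorem HTB_coef {F E : Type} [Field F] [Field E] [Algebra F E] (u w : E) (hu : Transcendental F u)
    (hw : IsIntegral (Algebra.adjoin F {u}) w) (K : IntermediateField F E)
    (hK : K = IntermediateField.adjoin F {u}) :
    IsIntegral K w ∧ ∃ f : Polynomial (Algebra.adjoin F {u}), aeval w f = 0 ∧
      ∀ i, ((minpoly K w).coeff i : E) = (f.coeff i : E) := by
  subst hK
  have hic := HTB_ic u hu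
  refine ⟨hw.tower_top, minpoly _ w, minpoly.aeval _ w, fun i => ?_⟩
  rw [minpoly.isIntegrallyClosed_eq_field_fractions' (IntermediateField.adjoin F {u}) hw, coeff_map]
  rfl

theorem HTB_scale {K E : Type} [Field K] [Field E] [Algebra K E] (y : E) (c : K) (hc : c ≠ 0)
    (hy : IsIntegral K y) : minpoly K (algebraMap K E c * y) = (minpoly K y).scaleRoots c := by
  symm
  refine minpoly.unique K _ ((monic_scaleRoots_iff c).2 (minpoly.monic hy))
    (scaleRoots_aeval_eq_zero (minpoly.aeval K y)) fun q hq hq0 => ?_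
  rw [degree_scaleRoots]
  have h1 : aeval y (q.scaleRoots c⁻¹) = 0 := by
    have := scaleRoots_aeval_eq_zero (r := c⁻¹) hq0
    rwa [← mul_assoc, ← map_mul, inv_mul_cancel₀ hc, map_one, one_mul] at this
  have h2 := minpoly.min K y ((monic_scaleRoots_iff _).2 hq) h1
  rwa [degree_scaleRoots] at h2

theorem HTB_deg {F E : Type} [Field F] [Field E] [Algebra F E] (x : E) (hx : Transcendental F x)
    (A A' : F[X]) (N : ℕ) (h : aeval x A * x⁻¹ ^ N = aeval x⁻¹ A') (hA : A ≠ 0) : A.natDegree ≤ N := by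
  have hx0 : x ≠ 0 := by
    rintro rfl
    exact hx isAlgebraic_zero
  have hinj : Function.Injective (aeval x : F[X] →ₐ[F] E) := transcendental_iff_injective.1 hx
  obtain ⟨m, hm1, hm2⟩ : ∃ m : ℕ, N ≤ m ∧ A'.natDegree ≤ m := ⟨max N A'.natDegree, le_max_left _ _, le_max_right _ _⟩
  have hr : aeval x (reflect m A') * x⁻¹ ^ m = aeval x⁻¹ A' := by
    let _ : Invertible (x⁻¹) := invertibleOfNonzero (inv_ne_zero hx0)
    have h1 := eval₂_reflect_mul_pow (algebraMap F E) x⁻¹ m A' hm2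
    rw [invOf_eq_inv, inv_inv] at h1
    exact h1
  have h2 : aeval x (reflect m A') = aeval x (A * X ^ (m - N)) := by
    have h3 : aeval x (reflect m A') * x⁻¹ ^ m * x ^ m = aeval x A * x⁻¹ ^ N * x ^ m := by rw [hr, h]
    rw [mul_assoc, ← mul_pow, inv_mul_cancel₀ hx0, one_pow, mul_one] at h3
    rw [h3, map_mul, map_pow, aeval_X]
    have h4 : x ^ m = x ^ N * x ^ (m - N) := by rw [← pow_add, Nat.add_sub_cancel' hm1]
    rw [h4, ← mul_assoc, mul_assoc (aeval x A), ← mul_pow, inv_mul_cancel₀ hx0, one_pow, mul_one]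
  have h5 := hinj h2
  have h6 : (reflect m A').natDegree ≤ m := by
    refine (natDegree_reflect_le).trans ?_
    exact max_le le_rfl hm2
  rw [h5, natDegree_mul hA (pow_ne_zero _ X_ne_zero), natDegree_X_pow] at h6
  omega

theorem HTB_gen {F E : Type} [Field F] [Field E] [Algebra F E] (x y : E) (T k : ℕ)
    (hx : Transcendental F x) (hy : y ≠ 0) (hi : IsIntegral (Algebra.adjoin F {x}) y)
    (hi' : IsIntegral (Algebra.adjoin F {x⁻¹}) (y * x⁻¹ ^ T))
    (hP : ∃ P : Polynomial E, P ≠ 0 ∧ P.natDegree ≤ k ∧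
      (∀ i, P.coeff i ∈ IntermediateField.adjoin F {x}) ∧ P.eval y = 0) :
    ∃ (A : Polynomial F) (z : E), A ≠ 0 ∧ A.natDegree ≤ k * T ∧
      IsIntegral (Algebra.adjoin F {x}) z ∧ aeval x A = y * z := by
  have hx0 : x ≠ 0 := by
    rintro rfl
    exact hx isAlgebraic_zero
  have hx' : Transcendental F x⁻¹ := fun h => hx (by simpa using h.inv)
  obtain ⟨K, hK⟩ : ∃ K : IntermediateField F E, K = IntermediateField.adjoin F {x} := ⟨_, rfl⟩
  have hxK : x ∈ K := by
    rw [hK]
    exact IntermediateField.mem_adjoin_simple_self F x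
  have hK' : K = IntermediateField.adjoin F {x⁻¹} := by
    rw [hK]
    refine le_antisymm ?_ ?_
    · rw [IntermediateField.adjoin_simple_le_iff]
      have := inv_mem (IntermediateField.mem_adjoin_simple_self F x⁻¹)
      rwa [inv_inv] at this
    · rw [IntermediateField.adjoin_simple_le_iff]
      exact inv_mem (IntermediateField.mem_adjoin_simple_self F x)
  obtain ⟨hyK, f, hf0, hf⟩ := HTB_coef x y hx hi K hK
  obtain ⟨-, f', -, hf'⟩ := HTB_coef x⁻¹ (y * x⁻¹ ^ T) hx' hi' K hK'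
  -- the degree
  obtain ⟨j, hj⟩ : ∃ j : ℕ, j = (minpoly K y).natDegree := ⟨_, rfl⟩
  have hjk : j ≤ k := by
    obtain ⟨P, hP0, hPk, hPK, hPy⟩ := hP
    have hl : P ∈ lifts (algebraMap K E) := by
      rw [lifts_iff_coeff_lifts]
      intro i
      have := hPK i
      rw [← hK] at this
      exact ⟨⟨_, this⟩, rfl⟩
    obtain ⟨P₀, hP₀⟩ := (mem_lifts _).1 hl
    have h1 : P₀ ≠ 0 := by
      rintro rfl
      rw [Polynomial.map_zero] at hP₀
      exact hP0 hP₀.symm
    have h2 : aeval y P₀ = 0 := by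
      rw [aeval_def, eval₂_eq_eval_map, hP₀, hPy]
    have h3 := natDegree_le_natDegree (minpoly.degree_le_of_ne_zero K y h1 h2)
    rw [hj]
    refine h3.trans ?_
    rw [← natDegree_map (algebraMap K E), hP₀]
    exact hPk
  -- the constant coefficients
  obtain ⟨c, hc⟩ : ∃ c : K, (c : E) = x⁻¹ ^ T := ⟨⟨x⁻¹ ^ T, pow_mem (inv_mem hxK) T⟩, rfl⟩
  have hc0 : c ≠ 0 := by
    rintro rfl
    exact pow_ne_zero T (inv_ne_zero hx0) hc.symm
  have hsc : minpoly K (y * x⁻¹ ^ T) = (minpoly K y).scaleRoots c := by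
    rw [← HTB_scale y c hc0 hyK, mul_comm y, ← hc]
    rfl
  have h0 : ((minpoly K (y * x⁻¹ ^ T)).coeff 0 : E) = ((minpoly K y).coeff 0 : E) * x⁻¹ ^ (T * j) := by
    rw [hsc, coeff_scaleRoots, Nat.sub_zero, ← hj, pow_mul, ← hc]
    push_cast
    rfl
  have hA : ∃ A : F[X], aeval x A = ((minpoly K y).coeff 0 : E) := by
    have h1 : ((f.coeff 0 : Algebra.adjoin F {x}) : E) ∈ Algebra.adjoin F {x} := (f.coeff 0).2
    rw [← hf, Algebra.adjoin_singleton_eq_range_aeval] at h1
    exact h1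
  have hA' : ∃ A : F[X], aeval x⁻¹ A = ((minpoly K (y * x⁻¹ ^ T)).coeff 0 : E) := by
    have h1 : ((f'.coeff 0 : Algebra.adjoin F {x⁻¹}) : E) ∈ Algebra.adjoin F {x⁻¹} := (f'.coeff 0).2
    rw [← hf', Algebra.adjoin_singleton_eq_range_aeval] at h1
    exact h1
  obtain ⟨A, hA⟩ := hA
  obtain ⟨A', hA'⟩ := hA'
  have hA0 : A ≠ 0 := by
    rintro rfl
    rw [map_zero] at hA
    have h1 : (minpoly K y).coeff 0 ≠ 0 := minpoly.coeff_zero_ne_zero hyK hy
    exact h1 (Subtype.ext hA.symm)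
  have hdeg : A.natDegree ≤ T * j := by
    refine HTB_deg x hx A A' (T * j) ?_ hA0
    rw [hA, hA', h0]
  refine ⟨A, -aeval y f.divX, hA0, ?_, ?_, ?_⟩
  · refine hdeg.trans ?_
    rw [mul_comm]
    exact Nat.mul_le_mul_right T hjk
  · refine IsIntegral.neg ?_
    have h1 : aeval y f.divX ∈ Algebra.adjoin (Algebra.adjoin F {x}) {y} :=
      aeval_mem_adjoin_singleton _ y
    have h2 : Algebra.adjoin (Algebra.adjoin F {x}) {y} ≤ integralClosure (Algebra.adjoin F {x}) E := by
      refine Algebra.adjoin_le ?_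
      rintro w rfl
      exact hi
    exact h2 h1
  · rw [hA, hf]
    have h1 : aeval y (f.divX * X + C (f.coeff 0)) = 0 := by rw [divX_mul_X_add, hf0]
    rw [map_add, map_mul, aeval_X, aeval_C] at h1
    have h2 : algebraMap (Algebra.adjoin F {x}) E (f.coeff 0) = (f.coeff 0 : E) := rfl
    rw [h2] at h1
    linear_combination h1

theorem HTB : HTB_stmt := fun x y T k hx hy hi hi' hP => HTB_gen x y T k hx hy hi hi' hP

end Pool.Agent.QP
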