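import Pool.Agent.helper19.QP.SpecM

set_option autoImplicit false

open Polynomial Pool.Agent.helper7.IG

noncomputable section

namespace Pool.Agent.QP

/-- the elements of `MM` whose image is fixed by `γ` -/
def ORF_S (Φ : Frame) (γ : Φ.A ≃ₐ[kk] Φ.A) : Subalgebra kk LL where
  carrier := {x | x ∈ MM ∧ γ (Φ.cl x) = Φ.cl x}
  mul_mem' := by
    rintro x y ⟨hx, hx'⟩ ⟨hy, hy'⟩
    refine ⟨MM.mul_mem hx hy, ?_⟩
    rw [Φ.cl_mul x hx y hy, map_mul, hx', hy']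
  add_mem' := by
    rintro x y ⟨hx, hx'⟩ ⟨hy, hy'⟩
    refine ⟨MM.add_mem hx hy, ?_⟩
    rw [Φ.cl_add x hx y hy, map_add, hx', hy']
  algebraMap_mem' c := by
    refine ⟨MM.algebraMap_mem c, ?_⟩
    rw [Φ.cl_alg, AlgEquiv.commutes]

theorem ORF_aeval (S : Subalgebra kk LL) (x : LL) (hx : x ∈ S) (P : Polynomial kk) : aeval x P ∈ S := by
  rw [aeval_eq_sum_range]
  exact S.sum_mem fun i _ => S.smul_mem (S.pow_mem hx i) _

theorem ORF_ev2 (S : Subalgebra kk LL) (x y : LL) (hx : x ∈ S) (hy : y ∈ S) (G : Polynomial (Polynomial kk)) :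
    ev2 G x y ∈ S := by
  unfold ev2
  rw [eval₂_eq_sum_range]
  exact S.sum_mem fun i _ => S.mul_mem (ORF_aeval S y hy _) (S.pow_mem hx i)

theorem ORF_AN (l B : ℕ) (u : Vx) (hu : u ∈ AN l B) : Nb l (B, 1) u := by
  unfold AN at hu
  split_ifs at hu with h
  · exact (Set.Finite.mem_toFinset h).1 hu
  · exact absurd hu (Finset.notMem_empty u)

theorem ORF_odd (l B : ℕ) (u : Vx) (hl : Odd l) (hB : Odd B) (hu : u ∈ AN l B) : Odd u.1 := by
  rcases ORF_AN l B u hu with ⟨h, -⟩ | ⟨h, -⟩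
  · rw [h]
    exact hl.mul hB
  · have h' : B = l * u.1 := h
    rw [h'] at hB
    exact (Nat.odd_mul.1 hB).2

theorem ORF (hORT : ORT_stmt) (hPMM : PMM_stmt) (hME : ME_stmt) : ORF_stmt := by
  intro F N l hF hN hNs hl hl2 hl3 hNl
  obtain ⟨B0, hB0, h⟩ := hORT F N l hF hN hNs hl hl2 hl3 hNl
  refine ⟨B0, hB0, fun Q G a b Φ γ B hB hBB hγ => ?_⟩
  have hlo : Odd l := hl.odd_of_ne_two hl2
  have h3B : Odd (3 * B) := (by decide : Odd 3).mul hB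
  have hF' : PN N F ∈ MM := hPMM N F hN hNs hF.1
  have hsig : ∀ (e : ℕ) (ζ : kkˣ) (H : LL), Odd e → H ∈ MM → sig e ζ H ∈ MM := hME
  have hDD : DDk ∈ MM := DDk_mem
  have hTL : ∀ B : ℕ, Odd B → TL l B (PN N F) ∈ MM := by
    intro B hB
    unfold TL
    exact MM.add_mem (hsig B 1 _ hB hF') (MM.sum_mem fun u hu => hsig u.1 u.2 _ (ORF_odd l B u hlo hB hu) hF')
  have hPI : ∀ B : ℕ, Odd B → PI0 Q l B ∈ MM := by
    intro B hB
    unfold PI0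
    refine MM.mul_mem (ORF_aeval MM.toSubalgebra _ (hsig B 1 _ hB hDD) Q) ?_
    exact MM.prod_mem fun u hu => ORF_aeval MM.toSubalgebra _ (hsig u.1 u.2 _ (ORF_odd l B u hlo hB hu) hDD) Q
  have h1 := h Q Φ γ B hB hBB (fun M η hM hη => hγ M η (hM.trans ⟨3, by ring⟩) (by
    rw [pow_mul', hη, one_pow]))
  have h2 := h Q Φ γ (3 * B) h3B (hBB.trans ⟨3, by ring⟩) (fun M η hM hη => by
    have h3 := hγ (3 * M) η (mul_dvd_mul_left 3 hM) (by rw [pow_mul', hη, one_pow])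
    have e : 3 * B * M = B * (3 * M) := by ring
    rw [e]
    exact h3)
  have hmem : Y2 (PN N F) Q G a b l B ∈ ORF_S Φ γ := by
    unfold Y2 EE2
    refine (ORF_S Φ γ).mul_mem ((ORF_S Φ γ).mul_mem ?_ ?_) (ORF_ev2 _ _ _ ?_ ?_ G)
    · exact (ORF_S Φ γ).pow_mem ⟨hPI B hB, h1.2⟩ a
    · exact (ORF_S Φ γ).pow_mem ⟨hPI (3 * B) h3B, h2.2⟩ b
    · exact ⟨hTL B hB, h1.1⟩
    · exact ⟨hTL (3 * B) h3B, h2.1⟩
  exact hmem.2

end Pool.Agent.QP
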