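import Pool.Agent.helper19.QP.SpecM

set_option autoImplicit false

open Polynomial Pool.Agent.helper7.IG

noncomputable section

namespace Pool.Agent.QP

open scoped IntermediateField.algebraAdjoinAdjoin in
theorem REA_alg {F : LL} (hF : F ∈ MM) : IsAlgebraic (Algebra.adjoin kk {DDk}) F := by
  rw [mem_MM] at hF
  exact (IsFractionRing.isAlgebraic_iff (Algebra.adjoin kk {DDk})
    (IntermediateField.adjoin kk {DDk}) LL).mpr hF

theorem REA_cl (s : Set LL) (a : LL) :
    a ∈ (AlgebraicIndependent.matroid kk LL).closure s ↔ IsAlgebraic (Algebra.adjoin kk s) a := by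
  rw [AlgebraicIndependent.matroid_closure_eq, SetLike.mem_coe, Subalgebra.mem_algebraicClosure]

theorem REA_exch (x d y : LL) (hx : IsAlgebraic (Algebra.adjoin kk {d}) x) (hx' : ¬ IsAlgebraic kk x)
    (hy : IsAlgebraic (Algebra.adjoin kk {d}) y) : IsAlgebraic (Algebra.adjoin kk {x}) y := by
  have h1 : x ∈ (AlgebraicIndependent.matroid kk LL).closure (insert d ∅) := by
    rw [REA_cl, insert_empty_eq]
    exact hx
  have h2 : x ∉ (AlgebraicIndependent.matroid kk LL).closure ∅ := by
    rw [REA_cl, Algebra.adjoin_empty]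
    intro h
    exact hx' (Subalgebra.isAlgebraic_of_isAlgebraic_bot h)
  have h3 := Matroid.mem_closure_insert h2 h1
  rw [insert_empty_eq] at h3
  have h4 : (AlgebraicIndependent.matroid kk LL).closure {d} ⊆
      (AlgebraicIndependent.matroid kk LL).closure {x} := by
    refine Matroid.closure_subset_closure_of_subset_closure ?_
    exact Set.singleton_subset_iff.2 h3
  rw [← REA_cl]
  exact h4 ((REA_cl _ _).2 hy)

theorem REA : REA_stmt := by
  intro F₁ F₂ h1 h2
  by_cases h : IsAlgebraic kk F₂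
  · obtain ⟨p, hp0, hp⟩ := h
    refine ⟨C p, C_ne_zero.2 hp0, ?_⟩
    unfold ev2
    rw [eval₂_C]
    exact hp
  · obtain ⟨P, hP0, hP⟩ := REA_exch F₂ DDk F₁ (REA_alg h2) h (REA_alg h1)
    have hsur : Function.Surjective (aeval (R := kk) (⟨F₂, Algebra.self_mem_adjoin_singleton kk F₂⟩ :
        Algebra.adjoin kk {F₂})).toRingHom := by
      rintro ⟨z, hz⟩
      have hz' := hz
      rw [Algebra.adjoin_singleton_eq_range_aeval] at hz'
      obtain ⟨b, hb⟩ := hz'
      refine ⟨b, Subtype.ext (Eq.trans ?_ hb)⟩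
      show ((aeval (⟨F₂, Algebra.self_mem_adjoin_singleton kk F₂⟩ : Algebra.adjoin kk {F₂}) b :
        Algebra.adjoin kk {F₂}) : LL) = aeval F₂ b
      exact (aeval_algHom_apply (Subalgebra.val _) _ b).symm
    obtain ⟨G, hG⟩ := Polynomial.map_surjective _ hsur P
    refine ⟨G, ?_, ?_⟩
    · rintro rfl
      rw [Polynomial.map_zero] at hG
      exact hP0 hG.symm
    · rw [aeval_def, ← hG, eval₂_map] at hP
      unfold ev2
      have e : (aeval (R := kk) F₂).toRingHom = (algebraMap (Algebra.adjoin kk {F₂}) LL).comp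
          (aeval (R := kk) (⟨F₂, Algebra.self_mem_adjoin_singleton kk F₂⟩ :
            Algebra.adjoin kk {F₂})).toRingHom := by
        refine RingHom.ext fun b => ?_
        show aeval F₂ b = ((aeval (⟨F₂, Algebra.self_mem_adjoin_singleton kk F₂⟩ :
          Algebra.adjoin kk {F₂}) b : Algebra.adjoin kk {F₂}) : LL)
        exact aeval_algHom_apply (Subalgebra.val (Algebra.adjoin kk {F₂}))
          ⟨F₂, Algebra.self_mem_adjoin_singleton kk F₂⟩ b
      rw [e]
      exact hP

end Pool.Agent.QP
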